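import Pool.Agent.Helper60.HB.Skel

/-!
# Module ASL: Schwarz lemma with almost zeros
-/

set_option autoImplicit false

namespace Pool.Agent.Helper60.HB

open Polynomial

theorem asl_iter (H : Polynomial ℂ) (k : ℕ) :
    iteratedDeriv k (fun z : ℂ => H.eval z) = fun z => (derivative^[k] H).eval z := by
  induction k with
  | zero =>
    rw [iteratedDeriv_zero]
    rfl
  | succ k ih =>
    rw [iteratedDeriv_succ, ih]
    funext z
    rw [Function.iterate_succ_apply', Polynomial.deriv]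

theorem asl_coeff (H : Polynomial ℂ) (k : ℕ) (x : ℂ) :
    (derivative^[k] H).eval x = (k.factorial : ℂ) * (taylor x H).coeff k := by
  rw [taylor_coeff, ← factorial_smul_hasseDeriv]
  simp

theorem st_ASL (hHRM : ST_HRM) (hSCHW : ST_SCHW) : ST_ASL := by
  intro f X τ ρ M δ z0 hf hρ hδ hX hXρ hder hM hz0
  obtain ⟨H, hH1, hH2⟩ := hHRM X τ (fun x k => iteratedDeriv k f (x : ℂ) / (k.factorial : ℂ)) δ hX hδ
    (by
      intro x hx k hk
      rw [norm_div, Complex.norm_natCast]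
      have h1 : (1 : ℝ) ≤ (k.factorial : ℝ) := by exact_mod_cast Nat.factorial_pos k
      calc ‖iteratedDeriv k f (x : ℂ)‖ / (k.factorial : ℝ) ≤ ‖iteratedDeriv k f (x : ℂ)‖ / 1 :=
            div_le_div_of_nonneg_left (norm_nonneg _) one_pos h1
        _ ≤ δ := by rw [div_one]; exact hder x hx k hk)
  set E : ℝ := X.card * τ * δ * (8 * ρ) ^ (X.card * τ) with hE
  have hE0 : 0 ≤ E := by positivity
  have hxnorm : ∀ x ∈ X, ‖(x : ℂ)‖ ≤ ρ := by
    intro x hx
    rw [Complex.norm_intCast]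
    exact hXρ x hx
  have hHw : ∀ w : ℂ, ‖w‖ ≤ 7 * ρ → ‖H.eval w‖ ≤ E := by
    intro w hw
    apply hH2 w (8 * ρ) (by linarith)
    intro x hx
    calc ‖w - (x : ℂ)‖ ≤ ‖w‖ + ‖(x : ℂ)‖ := norm_sub_le _ _
      _ ≤ 8 * ρ := by linarith [hxnorm x hx]
  have hg : Differentiable ℂ (fun z => f z - H.eval z) := hf.sub H.differentiable
  have key := hSCHW (fun z => f z - H.eval z) X τ ρ (7 * ρ) (M + E) z0 hg (by linarith) (by linarith) hXρ
    (by
      intro x hx k hk
      have hc1 : ContDiffAt ℂ k f (x : ℂ) := (hf.contDiff (n := k)).contDiffAt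
      have hc2 : ContDiffAt ℂ k (fun z : ℂ => H.eval z) (x : ℂ) :=
        (H.differentiable.contDiff (n := k)).contDiffAt
      have e := iteratedDeriv_sub hc1 hc2
      have e2 : (f - fun z : ℂ => H.eval z) = fun z => f z - H.eval z := rfl
      rw [e2] at e
      rw [e, asl_iter]
      show iteratedDeriv k f (x : ℂ) - (derivative^[k] H).eval (x : ℂ) = 0
      rw [asl_coeff, hH1 x hx k hk]
      have hk0 : (k.factorial : ℂ) ≠ 0 := Nat.cast_ne_zero.2 (Nat.factorial_ne_zero k)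
      field_simp
      ring)
    (by
      intro w hw
      calc ‖f w - H.eval w‖ ≤ ‖f w‖ + ‖H.eval w‖ := norm_sub_le _ _
        _ ≤ M + E := add_le_add (hM w hw) (hHw w hw.le))
    hz0
  have e3 : 2 * ρ / (7 * ρ - ρ) = 1 / 3 := by
    have : ρ ≠ 0 := by linarith
    field_simp
    ring
  rw [e3] at key
  have h13 : (1 / 3 : ℝ) ^ (X.card * τ) ≤ 1 := pow_le_one₀ (by norm_num) (by norm_num)
  calc ‖f z0‖ = ‖(f z0 - H.eval z0) + H.eval z0‖ := by rw [sub_add_cancel]
    _ ≤ ‖f z0 - H.eval z0‖ + ‖H.eval z0‖ := norm_add_le _ _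
    _ ≤ (M + E) * (1 / 3) ^ (X.card * τ) + E :=
        add_le_add key (hHw z0 (by linarith))
    _ = (1 / 3) ^ (X.card * τ) * M + (1 / 3) ^ (X.card * τ) * E + E := by ring
    _ ≤ (1 / 3) ^ (X.card * τ) * M + 1 * E + E := by
        have := mul_le_mul_of_nonneg_right h13 hE0
        linarith
    _ = (1 / 3) ^ (X.card * τ) * M + 2 * (X.card * τ) * δ * (8 * ρ) ^ (X.card * τ) := by
        rw [hE]
        ring

end Pool.Agent.Helper60.HB
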