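import Pool.Agent.Helper60.HB.Skel

/-!
# Module DEG: degrees after adjoining square roots
-/

set_option autoImplicit false

namespace Pool.Agent.Helper60.HB

open Polynomial

theorem deg_step (E : IntermediateField ℚ ℂ) [FiniteDimensional ℚ E] (z : ℂ) (hz : z ^ 2 ∈ E) :
    ∃ E' : IntermediateField ℚ ℂ, E ≤ E' ∧ z ∈ E' ∧ FiniteDimensional ℚ E' ∧
      Module.finrank ℚ E' ≤ 2 * Module.finrank ℚ E := by
  have hint : IsIntegral E z := by
    refine IsIntegral.of_pow (n := 2) (by norm_num) ?_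
    exact isIntegral_algebraMap (R := E) (A := ℂ) (x := ⟨z ^ 2, hz⟩)
  have hfd : FiniteDimensional E (IntermediateField.adjoin E {z}) :=
    IntermediateField.adjoin.finiteDimensional hint
  have hrank : Module.finrank E (IntermediateField.adjoin E {z}) ≤ 2 := by
    rw [IntermediateField.adjoin.finrank hint]
    have hdvd : minpoly E z ∣ (X ^ 2 - C (⟨z ^ 2, hz⟩ : E)) := by
      apply minpoly.dvd
      have e : algebraMap E ℂ (⟨z ^ 2, hz⟩ : E) = z ^ 2 := rfl
      simp [e]
    have h1 := natDegree_le_of_dvd hdvd (monic_X_pow_sub_C _ two_ne_zero).ne_zero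
    rwa [natDegree_X_pow_sub_C] at h1
  have hfd2 : FiniteDimensional ℚ (IntermediateField.adjoin E {z}) :=
    FiniteDimensional.trans ℚ E (IntermediateField.adjoin E {z})
  refine ⟨(IntermediateField.adjoin E {z}).restrictScalars ℚ, ?_, ?_, ?_, ?_⟩
  · intro a ha
    rw [IntermediateField.mem_restrictScalars]
    exact (IntermediateField.adjoin E {z}).algebraMap_mem ⟨a, ha⟩
  · rw [IntermediateField.mem_restrictScalars]
    exact IntermediateField.mem_adjoin_simple_self E z
  · exact hfd2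
  · have h1 : Module.finrank ℚ E * Module.finrank E (IntermediateField.adjoin E {z}) =
        Module.finrank ℚ (IntermediateField.adjoin E {z}) :=
      Module.finrank_mul_finrank ℚ E (IntermediateField.adjoin E {z})
    show Module.finrank ℚ (IntermediateField.adjoin E {z}) ≤ 2 * Module.finrank ℚ E
    rw [← h1, mul_comm]
    exact Nat.mul_le_mul_right _ hrank

theorem st_DEG : ST_DEG := by
  intro n K _ _ σ x hx y hy
  let f : K →ₐ[ℚ] ℂ := σ.toRatAlgHom
  have hf : ∀ a : K, f a = σ a := fun _ => rfl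
  have hK0 : Module.finrank ℚ f.fieldRange = Module.finrank ℚ K :=
    (AlgEquiv.ofInjectiveField f).toLinearEquiv.finrank_eq.symm
  have hK1 : FiniteDimensional ℚ f.fieldRange :=
    Module.Finite.equiv (AlgEquiv.ofInjectiveField f).toLinearEquiv
  have hmem : ∀ a : ℂ, a ∈ σ.fieldRange → a ∈ f.fieldRange := by
    rintro a ⟨b, rfl⟩
    exact ⟨b, rfl⟩
  have key : ∀ m : ℕ, m ≤ n → ∃ E : IntermediateField ℚ ℂ, f.fieldRange ≤ E ∧
      (∀ i : Fin n, (i : ℕ) < m → x i ∈ E) ∧ FiniteDimensional ℚ E ∧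
      Module.finrank ℚ E ≤ 2 ^ m * Module.finrank ℚ K := by
    intro m
    induction m with
    | zero =>
      intro _
      exact ⟨f.fieldRange, le_rfl, fun i hi => absurd hi (Nat.not_lt_zero _), hK1, by
        rw [hK0, pow_zero, one_mul]⟩
    | succ m ih =>
      intro hm
      obtain ⟨E, hE1, hE2, hE3, hE4⟩ := ih (by omega)
      obtain ⟨E', h1, h2, h3, h4⟩ := deg_step E (x ⟨m, hm⟩) (hE1 (hmem _ (hx _)))
      refine ⟨E', hE1.trans h1, ?_, h3, ?_⟩
      · intro i hi
        rcases Nat.lt_succ_iff_lt_or_eq.1 hi with h5 | h5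
        · exact h1 (hE2 i h5)
        · have : i = ⟨m, hm⟩ := Fin.ext h5
          rw [this]
          exact h2
      · calc Module.finrank ℚ E' ≤ 2 * Module.finrank ℚ E := h4
          _ ≤ 2 * (2 ^ m * Module.finrank ℚ K) := Nat.mul_le_mul_left _ hE4
          _ = 2 ^ (m + 1) * Module.finrank ℚ K := by ring
  obtain ⟨E, hE1, hE2, hE3, hE4⟩ := key n le_rfl
  have hyE : y ∈ E := by
    have hle : Subfield.closure ((σ.fieldRange : Set ℂ) ∪ Set.range x) ≤ E.toSubfield := by
      rw [Subfield.closure_le]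
      rintro a (ha | ⟨i, rfl⟩)
      · exact hE1 (hmem a ha)
      · exact hE2 i i.2
    exact hle hy
  have hmp : minpoly ℚ y = minpoly ℚ (⟨y, hyE⟩ : E) :=
    minpoly.algebraMap_eq (algebraMap E ℂ).injective (⟨y, hyE⟩ : E)
  refine ⟨?_, ?_⟩
  · have h1 : IsIntegral ℚ (⟨y, hyE⟩ : E) := IsIntegral.of_finite ℚ _
    exact h1.map (IsScalarTower.toAlgHom ℚ E ℂ)
  · rw [hmp]
    exact (minpoly.natDegree_le _).trans hE4

end Pool.Agent.Helper60.HB
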