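import Pool.Agent.Helper60.HB.Skel

/-!
# Module GENS: `n` square roots generate all the numbers `exp (∑ μ_i l_i / 2 ^ (J + 1))`
-/

set_option autoImplicit false

namespace Pool.Agent.Helper60.HB

theorem gens_add {n : ℕ} (l : Fin n → ℂ) (μ ν : Fin n → ℤ) (z : ℂ) :
    EX l (μ + ν) z = EX l μ z * EX l ν z := by
  unfold EX LS
  rw [← Complex.exp_add, ← mul_add, ← Finset.sum_add_distrib]
  congr 2
  refine Finset.sum_congr rfl fun i _ => ?_
  rw [Pi.add_apply]
  push_cast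
  ring

theorem gens_smul {n : ℕ} (l : Fin n → ℂ) (k : ℤ) (μ : Fin n → ℤ) (z : ℂ) :
    EX l (k • μ) z = EX l μ z ^ k := by
  unfold EX LS
  rw [← Complex.exp_int_mul]
  congr 1
  have e : ∑ i, ((k • μ) i : ℂ) * l i = (k : ℂ) * ∑ i, (μ i : ℂ) * l i := by
    rw [Finset.mul_sum]
    refine Finset.sum_congr rfl fun i _ => ?_
    rw [Pi.smul_apply, smul_eq_mul]
    push_cast
    ring
  rw [e]
  ring

theorem gens_zero {n : ℕ} (l : Fin n → ℂ) (z : ℂ) : EX l 0 z = 1 := by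
  unfold EX LS
  simp

/-- the exponents whose exponential lies in a subfield -/
def gensSub {n : ℕ} (l : Fin n → ℂ) (S : Subfield ℂ) (z : ℂ) : Submodule ℤ (Fin n → ℤ) where
  carrier := {μ | EX l μ z ∈ S}
  add_mem' := by
    intro μ ν hμ hν
    show EX l (μ + ν) z ∈ S
    rw [gens_add]
    exact S.mul_mem hμ hν
  zero_mem' := by
    show EX l 0 z ∈ S
    rw [gens_zero]
    exact S.one_mem
  smul_mem' := by
    intro k μ hμ
    show EX l (k • μ) z ∈ S
    rw [gens_smul]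
    exact S.zpow_mem hμ k

theorem st_GENS : ST_GENS := by
  intro n K _ _ D J
  classical
  obtain ⟨m, B⟩ := Submodule.smithNormalForm (Pi.basisFun ℤ (Fin n)) (gensSub D.l D.σ.fieldRange (1 / 2 ^ J))
  let g : Fin n → (Fin n → ℤ) := fun i => if h : ∃ j, B.f j = i then (B.bN h.choose : Fin n → ℤ) else 0
  have hg : ∀ j, g (B.f j) = (B.bN j : Fin n → ℤ) := by
    intro j
    have h : ∃ j', B.f j' = B.f j := ⟨j, rfl⟩
    show (if h : ∃ j', B.f j' = B.f j then (B.bN h.choose : Fin n → ℤ) else 0) = _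
    rw [dif_pos h]
    have h2 := B.f.injective h.choose_spec
    rw [h2]
  have hgmem : ∀ i, EX D.l (g i) (1 / 2 ^ J) ∈ D.σ.fieldRange := by
    intro i
    by_cases h : ∃ j, B.f j = i
    · obtain ⟨j, rfl⟩ := h
      rw [hg]
      exact (B.bN j).2
    · have : g i = 0 := dif_neg h
      rw [this, gens_zero]
      exact D.σ.fieldRange.one_mem
  refine ⟨fun i => EX D.l (g i) (1 / 2 ^ (J + 1)), ?_, ?_⟩
  · intro i
    have e : EX D.l (g i) (1 / 2 ^ (J + 1)) ^ 2 = EX D.l (g i) (1 / 2 ^ J) := by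
      unfold EX
      rw [← Complex.exp_nat_mul]
      congr 1
      rw [pow_succ]
      push_cast
      field_simp
    rw [e]
    exact hgmem i
  · intro μ hμ
    set S : Subfield ℂ := Subfield.closure ((D.σ.fieldRange : Set ℂ) ∪
      Set.range fun i => EX D.l (g i) (1 / 2 ^ (J + 1))) with hS
    have hμN : μ ∈ gensSub D.l D.σ.fieldRange (1 / 2 ^ J) := hμ
    have h1 : (∑ j, (B.bN.repr ⟨μ, hμN⟩ j) • (B.bN j : Fin n → ℤ)) = μ := by
      have h2 := congrArg Subtype.val (B.bN.sum_repr ⟨μ, hμN⟩)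
      have h4 : ((∑ i, B.bN.repr ⟨μ, hμN⟩ i • B.bN i :
          gensSub D.l D.σ.fieldRange (1 / 2 ^ J)) : Fin n → ℤ) =
          ∑ j, (B.bN.repr ⟨μ, hμN⟩ j) • (B.bN j : Fin n → ℤ) := by
        rw [Submodule.coe_sum]
        rfl
      rw [← h4]
      exact h2
    have h3 : (∑ j, (B.bN.repr ⟨μ, hμN⟩ j) • (B.bN j : Fin n → ℤ)) ∈
        gensSub D.l S (1 / 2 ^ (J + 1)) := by
      refine Submodule.sum_mem _ fun j _ => Submodule.smul_mem _ _ ?_
      show EX D.l (B.bN j : Fin n → ℤ) (1 / 2 ^ (J + 1)) ∈ S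
      rw [← hg]
      exact Subfield.subset_closure (Or.inr ⟨B.f j, rfl⟩)
    rw [h1] at h3
    exact h3

end Pool.Agent.Helper60.HB
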