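import Pool.Agent.Helper60.HB.Skel

/-!
# Module HB: sizes from heights
-/

set_option autoImplicit false

namespace Pool.Agent.Helper60.HB

open NumberField Height

theorem hb_log_le {K : Type} [Field K] [NumberField K] (x : K) (τ : K →+* ℂ) :
    Real.log ‖τ x‖ ≤ logHeight₁ x := by
  classical
  rw [NumberField.logHeight₁_eq]
  have h1 : Real.log ‖τ x‖ ≤ ((InfinitePlace.mk τ).mult : ℝ) * Real.posLog ((InfinitePlace.mk τ) x) := by
    have e : (InfinitePlace.mk τ) x = ‖τ x‖ := rfl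
    rw [e]
    have h2 : Real.log ‖τ x‖ ≤ Real.posLog ‖τ x‖ := by
      rw [Real.posLog_def]
      exact le_max_right _ _
    have h3 : (1 : ℝ) ≤ ((InfinitePlace.mk τ).mult : ℝ) := by
      exact_mod_cast InfinitePlace.one_le_mult
    calc Real.log ‖τ x‖ ≤ Real.posLog ‖τ x‖ := h2
      _ = 1 * Real.posLog ‖τ x‖ := (one_mul _).symm
      _ ≤ _ := mul_le_mul_of_nonneg_right h3 Real.posLog_nonneg
  have h4 : ((InfinitePlace.mk τ).mult : ℝ) * Real.posLog ((InfinitePlace.mk τ) x) ≤
      ∑ v : InfinitePlace K, (v.mult : ℝ) * Real.posLog (v x) :=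
    Finset.single_le_sum (f := fun v : InfinitePlace K => (v.mult : ℝ) * Real.posLog (v x))
      (fun v _ => mul_nonneg (Nat.cast_nonneg _) Real.posLog_nonneg) (Finset.mem_univ _)
  have h5 : 0 ≤ ∑ᶠ v : FinitePlace K, Real.posLog (v x) :=
    finsum_nonneg fun v => Real.posLog_nonneg
  linarith

theorem st_HB : ST_HB := by
  intro K _ _ x hx
  refine ⟨?_, ?_⟩
  · intro τ
    rw [abs_le]
    refine ⟨?_, hb_log_le x τ⟩
    have h := hb_log_le x⁻¹ τ
    rw [logHeight₁_inv, map_inv₀, norm_inv, Real.log_inv] at h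
    linarith
  · obtain ⟨q1, h10, h11, h12⟩ := NumberField.exists_nat_le_mulHeight₁ x
    obtain ⟨q2, h20, h21, h22⟩ := NumberField.exists_nat_le_mulHeight₁ x⁻¹
    have hnat : ∀ q : ℕ, IsIntegral ℤ (q : K) := by
      intro q
      have := isIntegral_algebraMap (R := ℤ) (A := K) (x := (q : ℤ))
      simpa using this
    have hq1 : (0 : ℝ) < q1 := by exact_mod_cast Nat.pos_of_ne_zero h10
    have hq2 : (0 : ℝ) < q2 := by exact_mod_cast Nat.pos_of_ne_zero h20
    refine ⟨q1 * q2, Nat.mul_pos (Nat.pos_of_ne_zero h10) (Nat.pos_of_ne_zero h20), ?_, ?_, ?_⟩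
    · have h13 : Real.log q1 ≤ logHeight₁ x := Real.log_le_log hq1 h11
      have h23 : Real.log q2 ≤ logHeight₁ x := by
        rw [← logHeight₁_inv]
        exact Real.log_le_log hq2 h21
      rw [Nat.cast_mul, Real.log_mul hq1.ne' hq2.ne']
      linarith
    · have e : ((q1 * q2 : ℕ) : K) * x = (q2 : K) * ((q1 : K) * x) := by push_cast; ring
      rw [e]
      exact (hnat q2).mul h12
    · have e : ((q1 * q2 : ℕ) : K) * x⁻¹ = (q1 : K) * ((q2 : K) * x⁻¹) := by push_cast; ring
      rw [e]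
      exact (hnat q1).mul h22

end Pool.Agent.Helper60.HB
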