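import Pool.Agent.Helper60.HB.Skel

/-!
# Module HTS: heights from sizes
-/

set_option autoImplicit false

namespace Pool.Agent.Helper60.HB

open NumberField Height

theorem hts_fin {K : Type} [Field K] [NumberField K] (v : FinitePlace K) {a : K}
    (ha : IsIntegral ℤ a) : v a ≤ 1 := by
  have h := FinitePlace.norm_le_one (K := K) v.maximalIdeal (⟨a, ha⟩ : 𝓞 K)
  rw [FinitePlace.norm_embedding_eq] at h
  exact h

theorem hts_inf {K : Type} [Field K] [NumberField K] (v : InfinitePlace K) {x : K} {M : ℝ}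
    (hM : ∀ τ : K →+* ℂ, ‖τ x‖ ≤ M) : v x ≤ M := by
  rw [← InfinitePlace.norm_embedding_eq]
  exact hM _

theorem st_HTS : ST_HTS := by
  intro K _ _ x q M hq hM hint hτ
  have hq0 : (q : K) ≠ 0 := Nat.cast_ne_zero.2 (by omega)
  have hqR : (1 : ℝ) ≤ q := by exact_mod_cast hq
  have hqR0 : (0 : ℝ) < q := by linarith
  have hM0 : (0 : ℝ) < M := by linarith
  rw [logHeight₁_eq_logHeight, ← logHeight_smul_eq_logHeight _ hq0, logHeight_eq_log_mulHeight]
  have hne : (q : K) • ![x, 1] ≠ 0 := by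
    intro h
    have h1 := congrFun h 1
    simp at h1
    exact hq0 (by exact_mod_cast h1)
  have hv0 : ∀ i : Fin 2, IsIntegral ℤ (((q : K) • ![x, 1]) i) := by
    intro i
    fin_cases i
    · simpa using hint
    · have : IsIntegral ℤ (q : K) := by
        have := isIntegral_algebraMap (R := ℤ) (A := K) (x := (q : ℤ))
        simpa using this
      simpa using this
  have hinf : ∀ v : InfinitePlace K, (⨆ i, v (((q : K) • ![x, 1]) i)) ≤ q * M := by
    intro v
    apply ciSup_le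
    intro i
    have hvq : v (q : K) = q := by
      rw [← InfinitePlace.norm_embedding_eq, map_natCast, Complex.norm_natCast]
    fin_cases i
    · show v ((q : K) * x) ≤ q * M
      rw [map_mul, hvq]
      exact mul_le_mul_of_nonneg_left (hts_inf v hτ) hqR0.le
    · show v ((q : K) * 1) ≤ q * M
      rw [mul_one, hvq]
      nlinarith
  have hinf0 : ∀ v : InfinitePlace K, 0 ≤ (⨆ i, v (((q : K) • ![x, 1]) i)) := fun v =>
    Real.iSup_nonneg fun i => apply_nonneg v _
  have hfin : 0 ≤ (∏ᶠ v : FinitePlace K, ⨆ i, v (((q : K) • ![x, 1]) i)) ∧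
      (∏ᶠ v : FinitePlace K, ⨆ i, v (((q : K) • ![x, 1]) i)) ≤ 1 := by
    refine finprod_induction (fun r : ℝ => 0 ≤ r ∧ r ≤ 1) ⟨zero_le_one, le_rfl⟩ ?_ ?_
    · rintro a b ⟨ha, ha'⟩ ⟨hb, hb'⟩
      exact ⟨mul_nonneg ha hb, mul_le_one₀ ha' hb hb'⟩
    · intro v
      exact ⟨Real.iSup_nonneg fun i => apply_nonneg v _, ciSup_le fun i => hts_fin v (hv0 i)⟩
  have hqM : 1 ≤ (q : ℝ) * M := by nlinarith
  have hbound : mulHeight ((q : K) • ![x, 1]) ≤ (q * M) ^ Module.finrank ℚ K := by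
    rw [NumberField.mulHeight_eq hne]
    have h1 : (∏ v : InfinitePlace K, (⨆ i, v (((q : K) • ![x, 1]) i)) ^ v.mult) ≤
        ∏ v : InfinitePlace K, ((q : ℝ) * M) ^ v.mult :=
      Finset.prod_le_prod (fun v _ => pow_nonneg (hinf0 v) _)
        fun v _ => pow_le_pow_left₀ (hinf0 v) (hinf v) _
    rw [Finset.prod_pow_eq_pow_sum, InfinitePlace.sum_mult_eq] at h1
    calc _ ≤ (∏ v : InfinitePlace K, (⨆ i, v (((q : K) • ![x, 1]) i)) ^ v.mult) * 1 :=
          mul_le_mul_of_nonneg_left hfin.2 (Finset.prod_nonneg fun v _ => pow_nonneg (hinf0 v) _)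
      _ ≤ _ := by rw [mul_one]; exact h1
  calc Real.log (mulHeight ((q : K) • ![x, 1])) ≤ Real.log ((q * M) ^ Module.finrank ℚ K) :=
        Real.log_le_log (mulHeight_pos _) hbound
    _ = (Module.finrank ℚ K : ℝ) * (Real.log q + Real.log M) := by
        rw [Real.log_pow, Real.log_mul hqR0.ne' hM0.ne']

end Pool.Agent.Helper60.HB
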