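import Pool.Agent.Helper60.HB.Skel

/-!
# Module KUM: linear independence of square roots
-/

set_option autoImplicit false

namespace Pool.Agent.Helper60.HB

open Polynomial

theorem kum_trace {F E : Type} [Field F] [Field E] [Algebra F E] [FiniteDimensional F E] (u : E) (a : F)
    (hu : u ^ 2 = algebraMap F E a) (hn : ∀ b : F, u ≠ algebraMap F E b) : Algebra.trace F E u = 0 := by
  have hirr : Irreducible (X ^ 2 - C a : F[X]) := by
    have hm : (X ^ 2 - C a : F[X]).Monic := monic_X_pow_sub_C a two_ne_zero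
    have hd : (X ^ 2 - C a : F[X]).natDegree = 2 := natDegree_X_pow_sub_C
    rw [hm.irreducible_iff_roots_eq_zero_of_degree_le_three (by rw [hd]) (by rw [hd]; norm_num)]
    by_contra h
    obtain ⟨b, hb⟩ := Multiset.exists_mem_of_ne_zero h
    have hb1 := (mem_roots hm.ne_zero).1 hb
    simp only [IsRoot.def, eval_sub, eval_pow, eval_X, eval_C] at hb1
    have h1 : u ^ 2 = (algebraMap F E b) ^ 2 := by
      rw [hu, ← map_pow, sub_eq_zero.1 hb1]
    rcases sq_eq_sq_iff_eq_or_eq_neg.1 h1 with h2 | h2
    · exact hn b h2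
    · exact hn (-b) (by rw [h2, map_neg])
  have hmin : minpoly F u = X ^ 2 - C a := by
    refine (minpoly.eq_of_irreducible_of_monic hirr ?_ (monic_X_pow_sub_C a two_ne_zero)).symm
    simp [hu]
  rw [trace_eq_finrank_mul_minpoly_nextCoeff, hmin]
  have hnc : (X ^ 2 - C a : F[X]).nextCoeff = 0 := by
    rw [nextCoeff_of_natDegree_pos (by rw [natDegree_X_pow_sub_C]; norm_num), natDegree_X_pow_sub_C]
    simp [coeff_X_pow]
  rw [hnc, neg_zero, mul_zero]

theorem st_KUM : ST_KUM := by
  intro F ι _ x hx hx2 hxx c hc hsum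
  classical
  let E : IntermediateField F ℂ := IntermediateField.adjoin F (Set.range x)
  have : FiniteDimensional F E := by
    have : Finite (Set.range x) := Set.finite_range x
    refine IntermediateField.finiteDimensional_adjoin ?_
    rintro _ ⟨i, rfl⟩
    refine IsIntegral.of_pow (n := 2) (by norm_num) ?_
    exact isIntegral_algebraMap (R := F) (A := ℂ) (x := ⟨x i ^ 2, hx2 i⟩)
  have hxE : ∀ i, x i ∈ E := fun i => IntermediateField.subset_adjoin F _ ⟨i, rfl⟩
  let y : ι → E := fun i => ⟨x i, hxE i⟩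
  let c' : ι → F := fun i => ⟨c i, hc i⟩
  have hy0 : ∀ i, y i ≠ 0 := fun i h => hx i (congrArg (Subtype.val) h)
  have hrel : ∑ i, c' i • y i = 0 := by
    apply Subtype.ext
    have e : ((∑ i, c' i • y i : E) : ℂ) = ∑ i, c i * x i := by
      rw [← IntermediateField.coe_val, map_sum]
      refine Finset.sum_congr rfl fun i _ => ?_
      rfl
    rw [e, hsum]
    rfl
  intro j
  have h1 : ∑ i, c' i • (y i * (y j)⁻¹) = 0 := by
    have : ∑ i, c' i • (y i * (y j)⁻¹) = (∑ i, c' i • y i) * (y j)⁻¹ := by
      rw [Finset.sum_mul]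
      exact Finset.sum_congr rfl fun i _ => (smul_mul_assoc _ _ _).symm
    rw [this, hrel, zero_mul]
  have h2 := congrArg (Algebra.trace F E) h1
  rw [map_sum, map_zero, Finset.sum_eq_single j] at h2
  · rw [map_smul, mul_inv_cancel₀ (hy0 j)] at h2
    have h3 : Algebra.trace F E (1 : E) = (Module.finrank F E : F) := by
      have := Algebra.trace_algebraMap (R := F) (S := E) (1 : F)
      rw [map_one] at this
      rw [this]
      simp
    rw [h3, smul_eq_mul] at h2
    have h4 : (Module.finrank F E : F) ≠ 0 := Nat.cast_ne_zero.2 Module.finrank_pos.ne'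
    have h5 := (mul_eq_zero.1 h2).resolve_right h4
    exact congrArg Subtype.val h5
  · intro i _ hij
    rw [map_smul]
    have : Algebra.trace F E (y i * (y j)⁻¹) = 0 := by
      refine kum_trace _ (⟨x i ^ 2, hx2 i⟩ * ⟨x j ^ 2, hx2 j⟩⁻¹ : F) ?_ ?_
      · apply Subtype.ext
        show (x i * (x j)⁻¹) ^ 2 = x i ^ 2 * (x j ^ 2)⁻¹
        rw [mul_pow, inv_pow]
      · intro b hb
        apply hxx i j hij
        have h6 : x i * (x j)⁻¹ = (b : ℂ) := congrArg Subtype.val hb
        rw [div_eq_mul_inv, h6]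
        exact b.2
    rw [this, smul_zero]
  · intro h
    exact absurd (Finset.mem_univ j) h

end Pool.Agent.Helper60.HB
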