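import Pool.Agent.Helper60.HB.Skel

/-!
# Module TERM: termination property for multiplicatively independent numbers
-/

set_option autoImplicit false

namespace Pool.Agent.Helper60.HB

open NumberField Height

theorem term_exp {n : ℕ} {K : Type} [Field K] [NumberField K] (D : BData n K) (μ : Fin n → ℤ) :
    Complex.exp (LS D.l μ) = D.σ (∏ i, D.α i ^ μ i) := by
  unfold LS
  rw [Complex.exp_sum, map_prod]
  refine Finset.prod_congr rfl fun i _ => ?_
  rw [Complex.exp_int_mul, D.exp_l, map_zpow₀]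

theorem term_tor_mul {K : Type} [Field K] {x y : K} (hx : TOR x) (hy : TOR y) : TOR (x * y) := by
  obtain ⟨m, hm, hxm⟩ := hx
  obtain ⟨k, hk, hyk⟩ := hy
  refine ⟨m * k, Nat.mul_pos hm hk, ?_⟩
  rw [mul_pow, pow_mul, hxm, one_pow, one_mul, mul_comm m k, pow_mul, hyk, one_pow]

theorem term_tor_zpow {K : Type} [Field K] {x : K} (hx : TOR x) (k : ℤ) : TOR (x ^ k) := by
  obtain ⟨m, hm, hxm⟩ := hx
  refine ⟨m, hm, ?_⟩
  rw [← zpow_natCast, ← zpow_mul, mul_comm, zpow_mul, zpow_natCast, hxm, one_zpow]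

theorem st_TERM (hC0 : ST_C0) : ST_TERM := by
  intro n d
  obtain ⟨c0, hc0, hc01, hC⟩ := hC0 d
  have hn : (0 : ℝ) < n + 1 := by positivity
  refine ⟨c0 / (2 * (n + 1)), by positivity, ?_, ?_⟩
  · rw [div_le_one (by positivity)]
    have : (0 : ℝ) ≤ n := Nat.cast_nonneg n
    linarith
  intro K _ _ hK D w hw hl0 htor hind J μ Lr hLr hμ hLr2 hmem
  obtain ⟨κ, hκ⟩ := hmem
  have h2J : (0 : ℝ) < 2 ^ J := by positivity
  have hκ0 : κ ≠ 0 := by
    rintro rfl
    rw [map_zero] at hκ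
    exact Complex.exp_ne_zero _ hκ.symm
  have hκp : κ ^ (2 ^ J) = ∏ i, D.α i ^ μ i := by
    apply D.σ.injective
    rw [map_pow, hκ, ← term_exp]
    unfold EX
    rw [← Complex.exp_nat_mul]
    congr 1
    push_cast
    field_simp
  -- the height of `κ`
  have hh : (2 : ℝ) ^ J * logHeight₁ κ ≤ (n + 1) * Lr := by
    have e1 : (2 : ℝ) ^ J * logHeight₁ κ = logHeight₁ (∏ i, D.α i ^ μ i) := by
      rw [← hκp, logHeight₁_pow]
      push_cast
      ring
    rw [e1]
    calc logHeight₁ (∏ i, D.α i ^ μ i) ≤ ∑ i, logHeight₁ (D.α i ^ μ i) :=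
          logHeight₁_prod_le _ _
      _ ≤ ∑ i : Fin (n + 1), Lr := by
          refine Finset.sum_le_sum fun i _ => ?_
          rw [logHeight₁_zpow]
          have h1 : ((μ i).natAbs : ℝ) = |(μ i : ℝ)| := by
            rw [Nat.cast_natAbs, Int.cast_abs]
          rw [h1]
          exact (mul_le_mul_of_nonneg_left (D.h_le i) (abs_nonneg _)).trans (hμ i)
      _ = (n + 1) * Lr := by
          rw [Finset.sum_const, Finset.card_univ, Fintype.card_fin, nsmul_eq_mul]
          push_cast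
          ring
  have hhκ : logHeight₁ κ < c0 := by
    have h1 : (2 : ℝ) ^ J * logHeight₁ κ ≤ 2 ^ J * (c0 / 2) := by
      refine hh.trans ?_
      calc ((n : ℝ) + 1) * Lr ≤ (n + 1) * (c0 / (2 * (n + 1)) * 2 ^ J) :=
            mul_le_mul_of_nonneg_left hLr2 hn.le
        _ = 2 ^ J * (c0 / 2) := by field_simp
    have h2 := le_of_mul_le_mul_left h1 h2J
    linarith
  have hκt : TOR κ := hC K hK κ hκ0 hhκ
  have hPt : TOR (∏ i, D.α i ^ μ i) := by
    rw [← hκp, ← zpow_natCast]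
    exact term_tor_zpow hκt _
  have hwC : (w : ℂ) ≠ 0 := Nat.cast_ne_zero.2 (by omega)
  have hα0 : TOR (D.α 0) := by
    refine ⟨w, hw, ?_⟩
    apply D.σ.injective
    rw [map_pow, ← D.exp_l, hl0, ← Complex.exp_nat_mul, map_one]
    have e : (w : ℂ) * (2 * Real.pi * Complex.I / w) = 2 * Real.pi * Complex.I := by field_simp
    rw [e, Complex.exp_two_pi_mul_I]
  have hν : (fun i : Fin n => μ i.succ) = 0 := by
    apply hind
    have e : (∏ i : Fin n, D.α i.succ ^ μ i.succ) =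
        D.α 0 ^ (-μ 0) * ∏ i, D.α i ^ μ i := by
      rw [Fin.prod_univ_succ, ← mul_assoc, ← zpow_add₀ (D.α_ne 0), neg_add_cancel, zpow_zero, one_mul]
    rw [e]
    exact term_tor_mul (term_tor_zpow hα0 _) hPt
  have hμs : ∀ i : Fin n, μ i.succ = 0 := fun i => congrFun hν i
  -- the first coordinate
  have hμ0 : μ 0 = 0 := by
    have h1 : κ ^ w = 1 := htor κ hκt
    have h2 : LS D.l μ = (μ 0 : ℂ) * (2 * Real.pi * Complex.I / w) := by
      unfold LS
      rw [Fin.sum_univ_succ, hl0]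
      have : ∑ i : Fin n, (μ i.succ : ℂ) * D.l i.succ = 0 :=
        Finset.sum_eq_zero fun i _ => by rw [hμs i, Int.cast_zero, zero_mul]
      rw [this, add_zero]
    have h3 : Complex.exp ((w : ℂ) * (1 / 2 ^ J * LS D.l μ)) = 1 := by
      rw [Complex.exp_nat_mul]
      have h4 : Complex.exp (1 / 2 ^ J * LS D.l μ) = D.σ κ := hκ.symm
      rw [h4, ← map_pow, h1, map_one]
    rw [Complex.exp_eq_one_iff] at h3
    obtain ⟨k, hk⟩ := h3
    have h2JC : (2 : ℂ) ^ J ≠ 0 := pow_ne_zero _ two_ne_zero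
    have hπ : (2 * Real.pi * Complex.I : ℂ) ≠ 0 := Complex.two_pi_I_ne_zero
    have h5 : (μ 0 : ℂ) = k * 2 ^ J := by
      rw [h2] at hk
      have h6 : (w : ℂ) * (1 / 2 ^ J * ((μ 0 : ℂ) * (2 * Real.pi * Complex.I / w))) =
          ((μ 0 : ℂ) / 2 ^ J) * (2 * Real.pi * Complex.I) := by field_simp
      rw [h6] at hk
      have h7 := mul_right_cancel₀ hπ hk
      rw [div_eq_iff h2JC] at h7
      exact h7
    have h8 : μ 0 = k * 2 ^ J := by exact_mod_cast h5
    have h9 : |(μ 0 : ℝ)| < 2 ^ J := by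
      have h10 : |(μ 0 : ℝ)| ≤ Lr := by
        calc |(μ 0 : ℝ)| = |(μ 0 : ℝ)| * 1 := (mul_one _).symm
          _ ≤ |(μ 0 : ℝ)| * D.A 0 := mul_le_mul_of_nonneg_left (D.one_le_A 0) (abs_nonneg _)
          _ ≤ Lr := hμ 0
      have h11 : c0 / (2 * ((n : ℝ) + 1)) < 1 := by
        rw [div_lt_one (by positivity)]
        have : (0 : ℝ) ≤ n := Nat.cast_nonneg n
        linarith
      calc |(μ 0 : ℝ)| ≤ c0 / (2 * (n + 1)) * 2 ^ J := h10.trans hLr2
        _ < 1 * 2 ^ J := mul_lt_mul_of_pos_right h11 h2J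
        _ = 2 ^ J := one_mul _
    by_contra hne
    have hk0 : k ≠ 0 := by
      rintro rfl
      exact hne (by rw [h8, zero_mul])
    have h12 : (1 : ℝ) ≤ |(k : ℝ)| := by
      have : (1 : ℤ) ≤ |k| := Int.one_le_abs hk0
      exact_mod_cast this
    have h13 : |(μ 0 : ℝ)| = |(k : ℝ)| * 2 ^ J := by
      rw [h8]
      push_cast
      rw [abs_mul, abs_of_pos h2J]
    rw [h13] at h9
    nlinarith
  funext i
  refine Fin.cases ?_ ?_ i
  · exact hμ0
  · intro j
    exact hμs j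

end Pool.Agent.Helper60.HB
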